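import Pool.Agent.Helper784LF.Op
import Pool.Agent.Helper784LF.FS2

/-!
# Stability does not pass to finite index overgroups

`H` is the direct sum of countably many dihedral groups `⟨a_i, b_i⟩` of order eight, with centres `z_i = [a_i, b_i]`,
and `G = H ⋊ ⟨t⟩` with `t² = 1`, `t a_i t = a_i z_0 z_i`, `t b_i t = b_i`.

* `H` is weakly `C*`-stable: it has retractions onto finite subgroups which exhaust `H`, and the group algebras of finite
  groups are weakly semiprojective.
* `G` is not matricially stable. In a finite dimensional representation `a_i` commutes with `b_i` for some `i` (centralizer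
  chains are finite), so `z_i` acts trivially and `t` is conjugate to `t z_0`. But `G` maps onto the infinite extraspecial
  group with `t ↦ 1`, `z_i ↦ z ≠ 1`, and the regular representations of its finite subgroups give an asymptotic
  representation with `t = 1` and `‖t z_0 - 1‖ ≥ 1`.
-/

set_option autoImplicit false

open Filter Topology
open scoped ComplexOrder

namespace Pool.Agent.Results.MP_7c14f5_an.FiniteIndexOvergroup

open Pool.Agent.Helper784LF

theorem WeaklyCStarStable.congr {H H' : Type} [Group H] [Group H'] (e : H' ≃* H)
    (h : WeaklyCStarStable H) : WeaklyCStarStable H' := by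
  intro B _ φ hφ
  obtain ⟨ρ, hρ, hlim⟩ := h B (fun n g => φ n (e.symm g))
    ⟨fun g g' => by simpa only [map_mul] using hφ.1 (e.symm g) (e.symm g'),
      fun g => by simpa only [map_inv] using hφ.2 (e.symm g)⟩
  refine ⟨fun n g => ρ n (e g), fun n => ⟨fun g g' => ?_, fun g => ?_⟩, fun g => ?_⟩
  · show ρ n (e (g * g')) = ρ n (e g) * ρ n (e g')
    rw [map_mul, (hρ n).1]
  · show ρ n (e g⁻¹) = star (ρ n (e g))
    rw [map_inv, (hρ n).2]
  · simpa using hlim (e g)

theorem WeaklyCStarStable.matricially {G : Type} [Group G] (h : WeaklyCStarStable G) :
    MatriciallyStable G := fun _ => h _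

/-- There are a countable group `G` and a subgroup `H` of index two which is weakly `C*`-stable (hence matricially
stable), while `G` is not matricially stable (hence not weakly `C*`-stable). -/
theorem result : ∃ (G : Type) (_ : Group G) (H : Subgroup G), Countable G ∧ H.index = 2 ∧
    WeaklyCStarStable H ∧ MatriciallyStable H ∧ ¬ MatriciallyStable G ∧ ¬ WeaklyCStarStable G := by
  have hH : WeaklyCStarStable HH := locRet_HH.weakly (fun F _ _ ε hε => fin_star_stable F ε hε)
  let e : (SemidirectProduct.inl : HH →* GG).range ≃* HH :=
    (MonoidHom.ofInjective SemidirectProduct.inl_injective).symm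
  have hH2 : WeaklyCStarStable (SemidirectProduct.inl : HH →* GG).range :=
    WeaklyCStarStable.congr e hH
  refine ⟨GG, inferInstance, (SemidirectProduct.inl : HH →* GG).range, inferInstance, ?_, hH2,
    WeaklyCStarStable.matricially hH2, not_matricially,
    fun h => not_matricially (WeaklyCStarStable.matricially h)⟩
  rw [SemidirectProduct.range_inl_eq_ker_rightHom, Subgroup.index_ker,
    MonoidHom.range_eq_top.2 SemidirectProduct.rightHom_surjective]
  simp

end Pool.Agent.Results.MP_7c14f5_an.FiniteIndexOvergroup
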